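import Mathlib

/-!
# MP_36f34d_co: many similar tetrahedra in the integer lattice

Integer quaternions with coordinates of order `√m` give, by the Euler-Rodrigues formula, about
`m ^ 2` integer matrices `A` with `Aᵀ A = N ^ 2`, `N ≤ m`. Together with the translations they give
about `m ^ 3 · m ^ 2` copies of a fixed lattice tetrahedron in a lattice cube with `n ≈ m ^ 3`
points, so `f(n) ≥ c n ^ (5 / 3)`.
-/

set_option autoImplicit false

namespace Pool.Agent.Results.MP_36f34d_co.FiveThirds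

open Finset

/-- Euclidean space of dimension three. -/
abbrev E3 : Type := EuclideanSpace ℝ (Fin 3)

/-- A tetrahedron: a set of four points that does not lie in a plane. -/
def IsTetrahedron (T : Finset E3) : Prop := T.card = 4 ∧ ¬ Coplanar ℝ (T : Set E3)

/-- `S = φ(T)` for a similarity `φ`: a scaling `x ↦ l x`, `l > 0`, followed by an isometry. -/
def IsSimilarTo (S T : Finset E3) : Prop :=
  ∃ (l : ℝ) (g : E3 ≃ᵢ E3), 0 < l ∧ (S : Set E3) = (fun x => g (l • x)) '' (T : Set E3)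

/-- The number of the 4-element subsets of `P` that are tetrahedra similar to `T`. -/
noncomputable def s (P T : Finset E3) : ℕ :=
  {S : Finset E3 | S ⊆ P ∧ IsTetrahedron S ∧ IsSimilarTo S T}.ncard

/-- The largest number of pairwise similar tetrahedra spanned by `n` points. -/
noncomputable def f (n : ℕ) : ℕ :=
  sSup {k | ∃ P T : Finset E3, P.card = n ∧ IsTetrahedron T ∧ k = s P T}

/-- Points with integer coordinates. -/
def IsIntegral (x : E3) : Prop := ∀ i, ∃ z : ℤ, x i = z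

/-! ### The matrices of quaternions -/

/-- The quaternion rotation matrix (times the norm) as a function on coordinates. -/
def act {R : Type} [CommRing R] (a b c d : R) (v : Fin 3 → R) : Fin 3 → R :=
  ![(a ^ 2 + b ^ 2 - c ^ 2 - d ^ 2) * v 0 + 2 * (b * c - a * d) * v 1 + 2 * (b * d + a * c) * v 2,
    2 * (b * c + a * d) * v 0 + (a ^ 2 - b ^ 2 + c ^ 2 - d ^ 2) * v 1 + 2 * (c * d - a * b) * v 2,
    2 * (b * d - a * c) * v 0 + 2 * (c * d + a * b) * v 1 + (a ^ 2 - b ^ 2 - c ^ 2 + d ^ 2) * v 2]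

theorem act_norm {R : Type} [CommRing R] (a b c d : R) (v : Fin 3 → R) :
    ∑ i, act a b c d v i ^ 2 = (a ^ 2 + b ^ 2 + c ^ 2 + d ^ 2) ^ 2 * ∑ i, v i ^ 2 := by
  simp only [act, Fin.sum_univ_three, Matrix.cons_val_zero, Matrix.cons_val_one,
    Matrix.cons_val]
  ring

/-- The linear map on Euclidean space. -/
noncomputable def actL (a b c d : ℝ) : E3 →ₗ[ℝ] E3 where
  toFun x := WithLp.toLp 2 (act a b c d x.ofLp)
  map_add' x y := by
    ext i
    fin_cases i <;> simp [act] <;> ring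
  map_smul' r x := by
    ext i
    fin_cases i <;> simp [act] <;> ring

theorem actL_norm (a b c d : ℝ) (x : E3) :
    ‖actL a b c d x‖ = (a ^ 2 + b ^ 2 + c ^ 2 + d ^ 2) * ‖x‖ := by
  have h1 : ‖actL a b c d x‖ ^ 2 = ((a ^ 2 + b ^ 2 + c ^ 2 + d ^ 2) * ‖x‖) ^ 2 := by
    rw [mul_pow, EuclideanSpace.norm_sq_eq, EuclideanSpace.norm_sq_eq]
    simp only [Real.norm_eq_abs, sq_abs]
    exact act_norm a b c d x.ofLp
  exact (pow_left_inj₀ (norm_nonneg _) (by positivity) two_ne_zero).1 h1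

/-- The rotation, as a linear isometry. -/
noncomputable def rot (a b c d : ℝ) (h : 0 < a ^ 2 + b ^ 2 + c ^ 2 + d ^ 2) : E3 →ₗᵢ[ℝ] E3 where
  toLinearMap := (a ^ 2 + b ^ 2 + c ^ 2 + d ^ 2)⁻¹ • actL a b c d
  norm_map' x := by
    rw [LinearMap.smul_apply, norm_smul, actL_norm, norm_inv, Real.norm_of_nonneg h.le,
      inv_mul_cancel_left₀ h.ne']

noncomputable def rotE (a b c d : ℝ) (h : 0 < a ^ 2 + b ^ 2 + c ^ 2 + d ^ 2) : E3 ≃ₗᵢ[ℝ] E3 :=
  (rot a b c d h).toLinearIsometryEquiv rfl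

/-- The similarity `x ↦ z + A x` as an affine map. -/
noncomputable def phi (z : E3) (a b c d : ℝ) : E3 →ᵃ[ℝ] E3 where
  toFun x := z + actL a b c d x
  linear := actL a b c d
  map_vadd' x v := by
    simp only [vadd_eq_add, map_add]
    abel

theorem phi_apply (z : E3) (a b c d : ℝ) (x : E3) : phi z a b c d x = z + actL a b c d x := rfl

theorem phi_eq (z : E3) (a b c d : ℝ) (h : 0 < a ^ 2 + b ^ 2 + c ^ 2 + d ^ 2) :
    ∃ g : E3 ≃ᵢ E3, ∀ x, phi z a b c d x = g ((a ^ 2 + b ^ 2 + c ^ 2 + d ^ 2) • x) := by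
  refine ⟨(rotE a b c d h).toIsometryEquiv.trans (IsometryEquiv.addLeft z), fun x => ?_⟩
  have h1 : (rotE a b c d h) ((a ^ 2 + b ^ 2 + c ^ 2 + d ^ 2) • x) = actL a b c d x := by
    rw [map_smul]
    show (a ^ 2 + b ^ 2 + c ^ 2 + d ^ 2) • ((a ^ 2 + b ^ 2 + c ^ 2 + d ^ 2)⁻¹ • actL a b c d x) = _
    rw [smul_inv_smul₀ h.ne']
  show z + actL a b c d x = z + _
  rw [← h1]
  rfl

theorem phi_inj (z : E3) (a b c d : ℝ) (h : 0 < a ^ 2 + b ^ 2 + c ^ 2 + d ^ 2) :
    Function.Injective (phi z a b c d) := by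
  obtain ⟨g, hg⟩ := phi_eq z a b c d h
  intro x y hxy
  rw [hg, hg] at hxy
  exact smul_right_injective _ h.ne' (g.injective hxy)

theorem phi_surj (z : E3) (a b c d : ℝ) (h : 0 < a ^ 2 + b ^ 2 + c ^ 2 + d ^ 2) :
    Function.Surjective (phi z a b c d) := by
  obtain ⟨g, hg⟩ := phi_eq z a b c d h
  intro y
  obtain ⟨x, rfl⟩ := g.surjective y
  exact ⟨(a ^ 2 + b ^ 2 + c ^ 2 + d ^ 2)⁻¹ • x, by rw [hg, smul_inv_smul₀ h.ne']⟩

/-- The matrix of a quaternion with positive coordinates determines the quaternion. -/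
theorem quat_unique {a b c d a' b' c' d' : ℝ} (ha : 0 < a) (ha' : 0 < a')
    (h : ∀ v : Fin 3 → ℝ, act a b c d v = act a' b' c' d' v) :
    a = a' ∧ b = b' ∧ c = c' ∧ d = d' := by
  have h0 := h ![1, 0, 0]
  have h1 := h ![0, 1, 0]
  have h2 := h ![0, 0, 1]
  have hn : (a ^ 2 + b ^ 2 + c ^ 2 + d ^ 2) = (a' ^ 2 + b' ^ 2 + c' ^ 2 + d' ^ 2) := by
    have e1 := act_norm a b c d ![1, 0, 0]
    rw [h0, act_norm] at e1
    have e2 : (∑ i : Fin 3, (![1, 0, 0] : Fin 3 → ℝ) i ^ 2) = 1 := by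
      simp [Fin.sum_univ_three]
    rw [e2, mul_one, mul_one] at e1
    exact (pow_left_inj₀ (by positivity) (by positivity) two_ne_zero).1 e1.symm
  have k00 := congrFun h0 0
  have k10 := congrFun h0 1
  have k20 := congrFun h0 2
  have k01 := congrFun h1 0
  have k11 := congrFun h1 1
  have k21 := congrFun h1 2
  have k02 := congrFun h2 0
  have k12 := congrFun h2 1
  have k22 := congrFun h2 2
  simp [act] at k00 k10 k20 k01 k11 k21 k02 k12 k22
  have haa : a = a' := by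
    have : a ^ 2 = a' ^ 2 := by linarith
    exact (pow_left_inj₀ ha.le ha'.le two_ne_zero).1 this
  subst haa
  have e1 : a * d = a * d' := by linarith
  have e2 : a * c = a * c' := by linarith
  have e3 : a * b = a * b' := by linarith
  exact ⟨rfl, mul_left_cancel₀ ha.ne' e3, mul_left_cancel₀ ha.ne' e2, mul_left_cancel₀ ha.ne' e1⟩

/-! ### Noncoplanar sets span -/

theorem span_top {T : Finset E3} (hT : IsTetrahedron T) : affineSpan ℝ (T : Set E3) = ⊤ := by
  have hne : (T : Set E3).Nonempty := by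
    rw [Finset.coe_nonempty, ← Finset.card_pos, hT.1]
    norm_num
  rw [AffineSubspace.affineSpan_eq_top_iff_vectorSpan_eq_top_of_nonempty _ _ _ hne]
  apply Submodule.eq_top_of_finrank_eq
  have h1 := hT.2
  rw [coplanar_iff_finrank_le_two] at h1
  have h2 := Submodule.finrank_le (vectorSpan ℝ (T : Set E3))
  have h3 : Module.finrank ℝ E3 = 3 := by simp
  omega

theorem not_coplanar_of_span {T : Set E3} (hT : affineSpan ℝ T = ⊤) (hne : T.Nonempty) :
    ¬ Coplanar ℝ T := by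
  rw [coplanar_iff_finrank_le_two,
    (AffineSubspace.affineSpan_eq_top_iff_vectorSpan_eq_top_of_nonempty _ _ _ hne).1 hT]
  have h3 : Module.finrank ℝ (⊤ : Submodule ℝ E3) = 3 := by
    rw [finrank_top]; simp
  omega

/-! ### The copies -/

open Classical in
/-- The copy `z + A T`. -/
noncomputable def copy (T : Finset E3) (z : E3) (a b c d : ℝ) : Finset E3 :=
  T.image (phi z a b c d)

theorem copy_tetra {T : Finset E3} (hT : IsTetrahedron T) (z : E3) (a b c d : ℝ)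
    (h : 0 < a ^ 2 + b ^ 2 + c ^ 2 + d ^ 2) : IsTetrahedron (copy T z a b c d) := by
  constructor
  · rw [copy, Finset.card_image_of_injective _ (phi_inj z a b c d h), hT.1]
  · rw [copy, Finset.coe_image]
    apply not_coplanar_of_span
    · exact AffineMap.span_eq_top_of_surjective _ (phi_surj z a b c d h) (span_top hT)
    · apply Set.Nonempty.image
      rw [Finset.coe_nonempty, ← Finset.card_pos, hT.1]
      norm_num

theorem copy_similar (T : Finset E3) (z : E3) (a b c d : ℝ)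
    (h : 0 < a ^ 2 + b ^ 2 + c ^ 2 + d ^ 2) : IsSimilarTo (copy T z a b c d) T := by
  obtain ⟨g, hg⟩ := phi_eq z a b c d h
  refine ⟨_, g, h, ?_⟩
  rw [copy, Finset.coe_image]
  exact Set.image_congr fun x _ => hg x

/-! ### The grid -/

/-- The point with the given integer coordinates. -/
noncomputable def toE (z : Fin 3 → ℤ) : E3 := WithLp.toLp 2 (fun i => (z i : ℝ))

theorem toE_inj : Function.Injective toE := by
  intro z w h
  funext i
  have h1 := congrArg (fun x : E3 => x i) h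
  simpa [toE] using h1

open Classical in
/-- The lattice cube. -/
noncomputable def grid (L : ℕ) : Finset E3 :=
  (Fintype.piFinset fun _ : Fin 3 => Finset.Icc (-(L : ℤ)) (2 * L)).image toE

theorem grid_card (L : ℕ) (hL : 1 ≤ L) : (grid L).card ≤ 64 * L ^ 3 := by
  classical
  rw [grid, Finset.card_image_of_injective _ toE_inj, Fintype.card_piFinset]
  simp only [Int.card_Icc, Finset.prod_const, Finset.card_univ, Fintype.card_fin]
  have h1 : (2 * (L : ℤ) + 1 - -(L : ℤ)).toNat = 3 * L + 1 := by omega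
  rw [h1]
  calc (3 * L + 1) ^ 3 ≤ (4 * L) ^ 3 := Nat.pow_le_pow_left (by omega) 3
    _ = 64 * L ^ 3 := by ring

theorem phi_toE (z v : Fin 3 → ℤ) (a b c d : ℤ) :
    phi (toE z) a b c d (toE v) = toE (z + act a b c d v) := by
  ext i
  rw [phi_apply]
  fin_cases i <;> simp [toE, actL, act]

theorem act_bound {a b c d : ℤ} {M C : ℤ} (ha : 1 ≤ a ∧ a ≤ M) (hb : 1 ≤ b ∧ b ≤ M)
    (hc : 1 ≤ c ∧ c ≤ M) (hd : 1 ≤ d ∧ d ≤ M) {v : Fin 3 → ℤ} (hv : ∀ i, |v i| ≤ C) (i : Fin 3) :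
    |act a b c d v i| ≤ 12 * C * M ^ 2 := by
  have sqb : ∀ x : ℤ, 1 ≤ x ∧ x ≤ M → 0 ≤ x ^ 2 ∧ x ^ 2 ≤ M ^ 2 := fun x hx =>
    ⟨by positivity, pow_le_pow_left₀ (by omega) hx.2 2⟩
  have mul : ∀ x y : ℤ, 1 ≤ x ∧ x ≤ M → 1 ≤ y ∧ y ≤ M → 0 ≤ x * y ∧ x * y ≤ M ^ 2 := by
    intro x y hx hy
    refine ⟨mul_nonneg (by omega) (by omega), ?_⟩
    rw [pow_two]
    exact mul_le_mul hx.2 hy.2 (by omega) (by omega)
  have hC : 0 ≤ C := (abs_nonneg _).trans (hv 0)
  have lin : ∀ k0 k1 k2 : ℤ, |k0| ≤ 4 * M ^ 2 → |k1| ≤ 4 * M ^ 2 → |k2| ≤ 4 * M ^ 2 →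
      |k0 * v 0 + k1 * v 1 + k2 * v 2| ≤ 12 * C * M ^ 2 := by
    intro k0 k1 k2 h0 h1 h2
    have e : ∀ (k : ℤ) (j : Fin 3), |k| ≤ 4 * M ^ 2 → |k * v j| ≤ 4 * M ^ 2 * C := by
      intro k j hk
      rw [abs_mul]
      exact mul_le_mul hk (hv j) (abs_nonneg _) (by positivity)
    have e0 := e k0 0 h0
    have e1 := e k1 1 h1
    have e2 := e k2 2 h2
    calc |k0 * v 0 + k1 * v 1 + k2 * v 2| ≤ |k0 * v 0| + |k1 * v 1| + |k2 * v 2| :=
          (abs_add_le _ _).trans (add_le_add_left (abs_add_le _ _) _)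
      _ ≤ 12 * C * M ^ 2 := by linarith
  have sa := sqb a ha
  have sb := sqb b hb
  have sc := sqb c hc
  have sd := sqb d hd
  have mbc := mul b c hb hc
  have mad := mul a d ha hd
  have mbd := mul b d hb hd
  have mac := mul a c ha hc
  have mcd := mul c d hc hd
  have mab := mul a b ha hb
  fin_cases i
  · show |(a ^ 2 + b ^ 2 - c ^ 2 - d ^ 2) * v 0 + 2 * (b * c - a * d) * v 1 +
      2 * (b * d + a * c) * v 2| ≤ _
    apply lin <;> rw [abs_le] <;> constructor <;> linarith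
  · show |2 * (b * c + a * d) * v 0 + (a ^ 2 - b ^ 2 + c ^ 2 - d ^ 2) * v 1 +
      2 * (c * d - a * b) * v 2| ≤ _
    apply lin <;> rw [abs_le] <;> constructor <;> linarith
  · show |2 * (b * d - a * c) * v 0 + 2 * (c * d + a * b) * v 1 +
      (a ^ 2 - b ^ 2 - c ^ 2 + d ^ 2) * v 2| ≤ _
    apply lin <;> rw [abs_le] <;> constructor <;> linarith

/-! ### Counting -/

/-- The indices of the copies: a translation and a quaternion. -/
noncomputable def idx (L M : ℕ) : Finset ((Fin 3 → ℤ) × (Fin 4 → ℤ)) :=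
  (Fintype.piFinset fun _ : Fin 3 => Finset.Icc (1 : ℤ) L) ×ˢ
    (Fintype.piFinset fun _ : Fin 4 => Finset.Icc (1 : ℤ) M)

theorem idx_card (L M : ℕ) : (idx L M).card = L ^ 3 * M ^ 4 := by
  rw [idx, Finset.card_product, Fintype.card_piFinset, Fintype.card_piFinset]
  simp

/-- The copy of `T` with the index `p`. -/
noncomputable def cp (T : Finset E3) (p : (Fin 3 → ℤ) × (Fin 4 → ℤ)) : Finset E3 :=
  copy T (toE p.1) (p.2 0) (p.2 1) (p.2 2) (p.2 3)

theorem mem_idx {L M : ℕ} {p : (Fin 3 → ℤ) × (Fin 4 → ℤ)} (h : p ∈ idx L M) :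
    (∀ i, 1 ≤ p.1 i ∧ p.1 i ≤ L) ∧ (∀ i, 1 ≤ p.2 i ∧ p.2 i ≤ M) := by
  simpa [idx] using h

theorem pos_of_mem {L M : ℕ} {p : (Fin 3 → ℤ) × (Fin 4 → ℤ)} (h : p ∈ idx L M) :
    0 < (p.2 0 : ℝ) ^ 2 + (p.2 1 : ℝ) ^ 2 + (p.2 2 : ℝ) ^ 2 + (p.2 3 : ℝ) ^ 2 := by
  have h1 := ((mem_idx h).2 0).1
  have h2 : (1 : ℝ) ≤ (p.2 0 : ℝ) := by exact_mod_cast h1
  positivity

theorem cp_subset {T : Finset E3} {C : ℕ} (hT : ∀ x ∈ T, ∃ v : Fin 3 → ℤ, x = toE v ∧
    ∀ i, |v i| ≤ C) {M : ℕ} {p : (Fin 3 → ℤ) × (Fin 4 → ℤ)}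
    (hp : p ∈ idx (12 * C * M ^ 2) M) : cp T p ⊆ grid (12 * C * M ^ 2) := by
  classical
  intro y hy
  rw [cp, copy, Finset.mem_image] at hy
  obtain ⟨x, hx, rfl⟩ := hy
  obtain ⟨v, rfl, hv⟩ := hT x hx
  rw [phi_toE, grid]
  apply Finset.mem_image_of_mem
  rw [Fintype.mem_piFinset]
  intro i
  obtain ⟨h1, h2⟩ := mem_idx hp
  have hb := act_bound (h2 0) (h2 1) (h2 2) (h2 3) hv i
  have hz := h1 i
  rw [abs_le] at hb
  rw [Finset.mem_Icc, Pi.add_apply]
  push_cast at hz hb ⊢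
  constructor <;> linarith [hb.1, hb.2, hz.1, hz.2]

theorem fiber_card {T : Finset E3} (hT : IsTetrahedron T) (L M : ℕ) (S : Finset E3)
    (hS : S.card = 4) [DecidableEq (Finset E3)] :
    ((idx L M).filter fun p => cp T p = S).card ≤ 256 := by
  classical
  have h1 : (Fintype.piFinset fun _ : {x // x ∈ T} => S).card = 256 := by
    rw [Fintype.card_piFinset]
    simp only [Finset.prod_const, Finset.card_univ, Fintype.card_coe, hS, hT.1]
    norm_num
  rw [← h1]
  apply Finset.card_le_card_of_injOn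
    (fun p => fun x : {x // x ∈ T} => phi (toE p.1) (p.2 0) (p.2 1) (p.2 2) (p.2 3) x.1)
  · intro p hp
    rw [Finset.coe_filter] at hp
    rw [Finset.mem_coe, Fintype.mem_piFinset]
    intro x
    rw [← hp.2, cp, copy]
    exact Finset.mem_image_of_mem _ x.2
  · intro p hp p' hp' h
    rw [Finset.coe_filter] at hp hp'
    have h2 : phi (toE p.1) (p.2 0) (p.2 1) (p.2 2) (p.2 3) =
        phi (toE p'.1) (p'.2 0) (p'.2 1) (p'.2 2) (p'.2 3) := by
      apply AffineMap.ext_on (span_top hT)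
      intro x hx
      exact congrFun h ⟨x, hx⟩
    have h3 : toE p.1 = toE p'.1 := by
      have := congrArg (fun g => g (0 : E3)) h2
      simpa [phi_apply] using this
    have h4 : ∀ v : Fin 3 → ℝ, act (p.2 0 : ℝ) (p.2 1) (p.2 2) (p.2 3) v =
        act (p'.2 0 : ℝ) (p'.2 1) (p'.2 2) (p'.2 3) v := by
      intro v
      have h5 := congrArg (fun g => g (WithLp.toLp 2 v : E3)) h2
      simp only [phi_apply, h3, add_right_inj] at h5
      have h6 := congrArg (fun x : E3 => x.ofLp) h5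
      simpa [actL] using h6
    have p1 : (0 : ℝ) < p.2 0 := by exact_mod_cast ((mem_idx hp.1).2 0).1
    have p2 : (0 : ℝ) < p'.2 0 := by exact_mod_cast ((mem_idx hp'.1).2 0).1
    obtain ⟨e0, e1, e2, e3⟩ := quat_unique p1 p2 h4
    refine Prod.ext (toE_inj h3) (funext fun i => ?_)
    fin_cases i
    · exact_mod_cast e0
    · exact_mod_cast e1
    · exact_mod_cast e2
    · exact_mod_cast e3

theorem s_finite (P T : Finset E3) :
    {S : Finset E3 | S ⊆ P ∧ IsTetrahedron S ∧ IsSimilarTo S T}.Finite := by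
  apply (P.powerset.finite_toSet).subset
  intro S hS
  rw [Finset.mem_coe, Finset.mem_powerset]
  exact hS.1

theorem count {T : Finset E3} (hT : IsTetrahedron T) {C : ℕ} (hC : ∀ x ∈ T,
    ∃ v : Fin 3 → ℤ, x = toE v ∧ ∀ i, |v i| ≤ C) (M : ℕ) {P : Finset E3}
    (hP : grid (12 * C * M ^ 2) ⊆ P) : (12 * C * M ^ 2) ^ 3 * M ^ 4 ≤ 256 * s P T := by
  classical
  have h1 := Finset.card_le_mul_card_image (f := cp T) (idx (12 * C * M ^ 2) M) 256 (by
    intro S hS
    apply fiber_card hT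
    rw [Finset.mem_image] at hS
    obtain ⟨p, hp, rfl⟩ := hS
    exact (copy_tetra hT _ _ _ _ _ (pos_of_mem hp)).1)
  rw [idx_card] at h1
  refine h1.trans (Nat.mul_le_mul_left _ ?_)
  rw [s, ← Set.ncard_coe_finset]
  apply Set.ncard_le_ncard _ (s_finite P T)
  intro S hS
  rw [Finset.mem_coe, Finset.mem_image] at hS
  obtain ⟨p, hp, rfl⟩ := hS
  exact ⟨(cp_subset hC hp).trans hP, copy_tetra hT _ _ _ _ _ (pos_of_mem hp),
    copy_similar T _ _ _ _ _ (pos_of_mem hp)⟩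

theorem s_pos {P T : Finset E3} (hT : IsTetrahedron T) (hP : T ⊆ P) : 1 ≤ s P T := by
  rw [s, Nat.one_le_iff_ne_zero, ← Nat.pos_iff_ne_zero, Set.ncard_pos (s_finite P T)]
  refine ⟨T, hP, hT, 1, IsometryEquiv.refl _, one_pos, ?_⟩
  have h1 : (fun x : E3 => (IsometryEquiv.refl E3) ((1 : ℝ) • x)) = id := by
    funext x
    rw [one_smul]
    rfl
  rw [h1, Set.image_id]

theorem s_le (P T : Finset E3) : s P T ≤ 2 ^ P.card := by
  rw [s, ← Finset.card_powerset, ← Set.ncard_coe_finset]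
  apply Set.ncard_le_ncard _ (Finset.finite_toSet _)
  intro S hS
  rw [Finset.mem_coe, Finset.mem_powerset]
  exact hS.1

theorem le_f {n : ℕ} {P T : Finset E3} (hP : P.card = n) (hT : IsTetrahedron T) :
    s P T ≤ f n := by
  apply le_csSup
  · refine ⟨2 ^ n, ?_⟩
    rintro k ⟨P', T', h1, _, rfl⟩
    rw [← h1]
    exact s_le P' T'
  · exact ⟨P, T, hP, hT, rfl⟩

theorem main {T : Finset E3} (hT : IsTetrahedron T) {C : ℕ} (hC1 : 1 ≤ C) (hC : ∀ x ∈ T,
    ∃ v : Fin 3 → ℤ, x = toE v ∧ ∀ i, |v i| ≤ C) :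
    ∃ c : ℝ, 0 < c ∧ ∀ n : ℕ, 4 ≤ n → ∃ P : Finset E3, P.card = n ∧
      c * (n : ℝ) ^ (5 / 3 : ℝ) ≤ s P T := by
  set K : ℕ := 64 * (12 * C) ^ 3 with hK
  have hK1 : 1 ≤ K := Nat.one_le_iff_ne_zero.2 (by positivity)
  have hKr : (1 : ℝ) ≤ K := by exact_mod_cast hK1
  have hKp : (1 : ℝ) ≤ (K : ℝ) ^ (5 / 3 : ℝ) := Real.one_le_rpow hKr (by norm_num)
  refine ⟨1 / (2 ^ 24 * (K : ℝ) ^ (5 / 3 : ℝ)), by positivity, fun n hn => ?_⟩
  rcases Nat.lt_or_ge n K with h | h
  · obtain ⟨P, hP1, hP2⟩ := Infinite.exists_superset_card_eq T n (by rw [hT.1]; exact hn)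
    refine ⟨P, hP2, ?_⟩
    have h1 : (1 : ℝ) ≤ s P T := by exact_mod_cast s_pos hT hP1
    refine le_trans ?_ h1
    have h2 : (n : ℝ) ^ (5 / 3 : ℝ) ≤ (K : ℝ) ^ (5 / 3 : ℝ) :=
      Real.rpow_le_rpow (Nat.cast_nonneg n) (by exact_mod_cast h.le) (by norm_num)
    rw [one_div, inv_mul_le_iff₀ (by positivity), mul_one]
    linarith
  · set M := Nat.findGreatest (fun M => K * M ^ 6 ≤ n) n with hM
    have hM1 : K * M ^ 6 ≤ n := by
      apply Nat.findGreatest_spec (P := fun M => K * M ^ 6 ≤ n) (Nat.zero_le n)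
      simp
    have hM2 : n < K * (M + 1) ^ 6 := by
      by_contra hcon
      rw [not_lt] at hcon
      have h3 : M + 1 ≤ n := by
        calc M + 1 ≤ (M + 1) ^ 6 := Nat.le_self_pow (by norm_num) _
          _ ≤ K * (M + 1) ^ 6 := Nat.le_mul_of_pos_left _ hK1
          _ ≤ n := hcon
      have h4 : M + 1 ≤ M :=
        Nat.le_findGreatest (P := fun M => K * M ^ 6 ≤ n) h3 hcon
      omega
    have hM3 : 1 ≤ M := by
      apply Nat.le_findGreatest (P := fun M => K * M ^ 6 ≤ n)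
      · omega
      · simpa using h
    have hL1 : 1 ≤ 12 * C * M ^ 2 := Nat.one_le_iff_ne_zero.2 (by positivity)
    obtain ⟨P, hP1, hP2⟩ := Infinite.exists_superset_card_eq (grid (12 * C * M ^ 2)) n (by
      refine (grid_card _ hL1).trans (le_trans (le_of_eq ?_) hM1)
      rw [hK]
      ring)
    refine ⟨P, hP2, ?_⟩
    have h5 := count hT hC M hP1
    have h6 : M ^ 10 ≤ 256 * s P T := by
      refine le_trans ?_ h5
      calc M ^ 10 = 1 * M ^ 10 := (one_mul _).symm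
        _ ≤ (12 * C) ^ 3 * M ^ 10 := Nat.mul_le_mul_right _ (Nat.one_le_iff_ne_zero.2
            (by positivity))
        _ = (12 * C * M ^ 2) ^ 3 * M ^ 4 := by ring
    have h7 : ((M : ℝ)) ^ 10 ≤ 256 * s P T := by exact_mod_cast h6
    have hMr : (1 : ℝ) ≤ M := by exact_mod_cast hM3
    have h8 : (n : ℝ) ≤ K * (4 * (M : ℝ) ^ 2) ^ 3 := by
      have h9 : (n : ℝ) ≤ K * ((M : ℝ) + 1) ^ 6 := by exact_mod_cast hM2.le
      have h10 : ((M : ℝ) + 1) ^ 6 ≤ (2 * (M : ℝ)) ^ 6 :=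
        pow_le_pow_left₀ (by positivity) (by linarith) 6
      calc (n : ℝ) ≤ K * ((M : ℝ) + 1) ^ 6 := h9
        _ ≤ K * (2 * (M : ℝ)) ^ 6 := mul_le_mul_of_nonneg_left h10 (by positivity)
        _ = K * (4 * (M : ℝ) ^ 2) ^ 3 := by ring
    have h11 : (n : ℝ) ^ (5 / 3 : ℝ) ≤ (K : ℝ) ^ (5 / 3 : ℝ) * (1024 * (M : ℝ) ^ 10) := by
      refine (Real.rpow_le_rpow (Nat.cast_nonneg n) h8 (by norm_num)).trans (le_of_eq ?_)
      rw [Real.mul_rpow (by positivity) (by positivity)]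
      congr 1
      rw [← Real.rpow_natCast (4 * (M : ℝ) ^ 2) 3, ← Real.rpow_mul (by positivity)]
      norm_num
      ring
    rw [one_div, inv_mul_le_iff₀ (by positivity)]
    refine h11.trans ?_
    have hs : (0 : ℝ) ≤ s P T := Nat.cast_nonneg _
    calc (K : ℝ) ^ (5 / 3 : ℝ) * (1024 * (M : ℝ) ^ 10)
        ≤ (K : ℝ) ^ (5 / 3 : ℝ) * (1024 * (256 * s P T)) := by gcongr
      _ ≤ 2 ^ 24 * (K : ℝ) ^ (5 / 3 : ℝ) * s P T := by
          have : 0 ≤ (K : ℝ) ^ (5 / 3 : ℝ) * s P T := by positivity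
          nlinarith

theorem exists_bound {T : Finset E3} (h : ∀ x ∈ T, IsIntegral x) : ∃ C : ℕ, 1 ≤ C ∧ ∀ x ∈ T,
    ∃ v : Fin 3 → ℤ, x = toE v ∧ ∀ i, |v i| ≤ C := by
  classical
  induction T using Finset.induction_on with
  | empty => exact ⟨1, le_rfl, by simp⟩
  | insert y T _ ih =>
    obtain ⟨C, hC1, hC⟩ := ih fun x hx => h x (Finset.mem_insert_of_mem hx)
    choose v hv using h y (Finset.mem_insert_self y T)
    refine ⟨C + ∑ i, (v i).natAbs, by omega, fun x hx => ?_⟩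
    rw [Finset.mem_insert] at hx
    rcases hx with rfl | hx
    · refine ⟨v, ?_, fun i => ?_⟩
      · ext i
        simp [toE, hv i]
      · have h1 : (v i).natAbs ≤ ∑ i, (v i).natAbs :=
          Finset.single_le_sum (f := fun i => (v i).natAbs) (fun _ _ => Nat.zero_le _)
            (Finset.mem_univ i)
        push_cast at h1 ⊢
        rw [Int.abs_eq_natAbs]
        push_cast
        have : ((v i).natAbs : ℤ) ≤ ((∑ i, (v i).natAbs : ℕ) : ℤ) := by exact_mod_cast h1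
        push_cast at this
        linarith [Int.natCast_nonneg C]
    · obtain ⟨w, hw1, hw2⟩ := hC x hx
      refine ⟨w, hw1, fun i => (hw2 i).trans ?_⟩
      push_cast
      have : (0 : ℤ) ≤ ((∑ i, (v i).natAbs : ℕ) : ℤ) := Int.natCast_nonneg _
      push_cast at this
      linarith

/-! ### The standard corner -/

open Classical in
/-- The simplex with the vertices `0`, `e₀`, `e₁`, `e₂`. -/
noncomputable def corner : Finset E3 :=
  Finset.image toE {![0, 0, 0], ![1, 0, 0], ![0, 1, 0], ![0, 0, 1]}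

theorem corner_integral : ∀ x ∈ corner, IsIntegral x := by
  intro x hx
  rw [corner, Finset.mem_image] at hx
  obtain ⟨v, _, rfl⟩ := hx
  exact fun i => ⟨v i, rfl⟩

theorem corner_tetra : IsTetrahedron corner := by
  classical
  constructor
  · rw [corner, Finset.card_image_of_injective _ toE_inj]
    decide
  · apply not_coplanar_of_span
    · rw [AffineSubspace.affineSpan_eq_top_iff_vectorSpan_eq_top_of_nonempty _ _ _
        ⟨toE ![0, 0, 0], by simp [corner]⟩, eq_top_iff]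
      have h0 : toE ![0, 0, 0] ∈ (corner : Set E3) := by simp [corner]
      have hm : ∀ v : Fin 3 → ℤ, toE v ∈ (corner : Set E3) →
          toE v - toE ![0, 0, 0] ∈ vectorSpan ℝ (corner : Set E3) := fun v hv =>
        vsub_mem_vectorSpan ℝ hv h0
      have m0 := hm ![1, 0, 0] (by simp [corner])
      have m1 := hm ![0, 1, 0] (by simp [corner])
      have m2 := hm ![0, 0, 1] (by simp [corner])
      intro x _
      have hx : x = x 0 • (toE ![1, 0, 0] - toE ![0, 0, 0]) +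
          x 1 • (toE ![0, 1, 0] - toE ![0, 0, 0]) + x 2 • (toE ![0, 0, 1] - toE ![0, 0, 0]) := by
        ext i
        fin_cases i <;> simp [toE]
      rw [hx]
      exact Submodule.add_mem _ (Submodule.add_mem _ (Submodule.smul_mem _ _ m0)
        (Submodule.smul_mem _ _ m1)) (Submodule.smul_mem _ _ m2)
    · exact ⟨toE ![0, 0, 0], by simp [corner]⟩

/-- **Lower bound.** Every tetrahedron `T` with integer vertices (for instance the standard simplex)
has at least `c n ^ (5 / 3)` similar copies in suitable sets of `n` points, `c = c(T) > 0`; in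
particular `f(n) ≥ c n ^ (5 / 3)` for all `n ≥ 4`. -/
theorem result :
    (∀ T : Finset E3, IsTetrahedron T → (∀ x ∈ T, IsIntegral x) →
      ∃ c : ℝ, 0 < c ∧ ∀ n : ℕ, 4 ≤ n → ∃ P : Finset E3, P.card = n ∧
        c * (n : ℝ) ^ (5 / 3 : ℝ) ≤ s P T) ∧
    ∃ c : ℝ, 0 < c ∧ ∀ n : ℕ, 4 ≤ n → c * (n : ℝ) ^ (5 / 3 : ℝ) ≤ f n := by
  have h : ∀ T : Finset E3, IsTetrahedron T → (∀ x ∈ T, IsIntegral x) →
      ∃ c : ℝ, 0 < c ∧ ∀ n : ℕ, 4 ≤ n → ∃ P : Finset E3, P.card = n ∧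
        c * (n : ℝ) ^ (5 / 3 : ℝ) ≤ s P T := by
    intro T hT hi
    obtain ⟨C, hC1, hC⟩ := exists_bound hi
    exact main hT hC1 hC
  refine ⟨h, ?_⟩
  obtain ⟨c, hc, hc'⟩ := h corner corner_tetra corner_integral
  refine ⟨c, hc, fun n hn => ?_⟩
  obtain ⟨P, hP, hs⟩ := hc' n hn
  exact hs.trans (by exact_mod_cast le_f hP corner_tetra)

end Pool.Agent.Results.MP_36f34d_co.FiveThirds
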